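import Pool.Agent.Lib.MP_b5021c_nt.IfaceB

/-!
# Board b5, row C1C: the division lemma
-/

set_option autoImplicit false

namespace Pool.Agent.B5.H32

open Polynomial

section
variable {L : Type} [AddCommGroup L]

/-- A shift which makes `lam` nonnegative on the support. -/
theorem exists_shift {K : Type} [CommRing K] (lam : L →+ ℤ) (H : AddMonoidAlgebra K L) :
    ∃ b : L, Nn lam (AddMonoidAlgebra.single b (1 : K) * H) := by
  classical
  by_cases h0 : lam = 0
  · refine ⟨0, fun a _ => ?_⟩
    rw [h0]; simp
  · obtain ⟨x, hx⟩ : ∃ x, 0 < lam x := by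
      by_contra hc
      push Not at hc
      apply h0
      ext x
      have h1 := hc x
      have h2 := hc (-x)
      rw [map_neg] at h2
      simp only [AddMonoidHom.zero_apply]
      omega
    set N : ℤ := ∑ a ∈ H.coeff.support, |lam a| with hN
    have hN0 : 0 ≤ N := Finset.sum_nonneg fun _ _ => abs_nonneg _
    refine ⟨N • x, fun a ha => ?_⟩
    have ha1 := AddMonoidAlgebra.support_coeff_single_mul_subset H (1 : K) (N • x) ha
    obtain ⟨c, hc, rfl⟩ := Finset.mem_image.1 ha1
    have h4 : |lam c| ≤ N :=
      Finset.single_le_sum (f := fun a => |lam a|) (fun _ _ => abs_nonneg _) hc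
    have h6 := (abs_le.1 h4).1
    rw [map_add, map_zsmul, smul_eq_mul]
    nlinarith

end

theorem c1c (hC0 : C0S) (hC1a : C1aS) (hC1b : C1bS) (hSl : SlEvalS) (hZ : ZfinS) : C1S := by
  intro O _ _ _ _ L _ _ _ G H lam hG hP hfin
  classical
  obtain ⟨hG0, hGpos, hGz⟩ := hG
  obtain ⟨b, hb⟩ := exists_shift lam H
  set H' : AO O L := AddMonoidAlgebra.single b (1 : RO O) * H with hH'
  have key : G ∣ H' := by
    have hsub : {z : Circle | ¬ ∀ u : AddChar L Circle,
        sl u lam (spec z G) ∣ sl u lam (spec z H')} ⊆
        {z : Circle | ¬ ∃ C : ℝ, ∀ u : AddChar L Circle, ‖ev z u H‖ ≤ C * ‖ev z u G‖} ∪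
          {z : Circle | evR z (G.coeff 0) = 0} := by
      intro z hz
      by_contra hcon
      rw [Set.mem_union, not_or] at hcon
      obtain ⟨h1, h2⟩ := hcon
      apply hz
      have h1' : ∃ C : ℝ, ∀ u : AddChar L Circle, ‖ev z u H‖ ≤ C * ‖ev z u G‖ := by
        by_contra h; exact h1 h
      obtain ⟨C, hC⟩ := h1'
      have h2' : evR z (G.coeff 0) ≠ 0 := h2
      have hsupp : ∀ (F : AO O L) (a : L), a ∈ (spec z F).coeff.support → a ∈ F.coeff.support := by
        intro F a ha
        rw [Finsupp.mem_support_iff, spec_coeff] at ha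
        rw [Finsupp.mem_support_iff]
        intro h; apply ha; rw [h, map_zero]
      have hNG : Nn lam (spec z G) := by
        intro a ha
        by_cases h : a = 0
        · rw [h, map_zero]
        · exact (hGpos a (hsupp G a ha) h).le
      have hNH : Nn lam (spec z H') := fun a ha => hb a (hsupp H' a ha)
      intro u
      have hev : ∀ (F : AO O L), Nn lam (spec z F) → ∀ s : Circle,
          (sl u lam (spec z F)).eval (s : ℂ) = ev z (twist u lam s) F := fun F hF s =>
        (hSl L u lam (spec z F) hF).1 s
      refine hC0 _ _ ?_ ?_ ?_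
      · intro h
        have h3 := hGz z h2' u 0 (by rw [h]; simp)
        simp at h3
      · intro s hs
        exact hGz z h2' u s hs
      · refine ⟨C, fun s hs => ?_⟩
        have h4 := hev G hNG ⟨s, by simpa [Submonoid.unitSphere] using hs⟩
        have h5 := hev H' hNH ⟨s, by simpa [Submonoid.unitSphere] using hs⟩
        have h4' : (sl u lam (spec z G)).eval s =
          ev z (twist u lam ⟨s, by simpa [Submonoid.unitSphere] using hs⟩) G := h4
        have h5' : (sl u lam (spec z H')).eval s =
          ev z (twist u lam ⟨s, by simpa [Submonoid.unitSphere] using hs⟩) H' := h5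
        rw [h4', h5', hH', map_mul, norm_mul]
        have h6 : ∀ v : AddChar L Circle, ev z v (AddMonoidAlgebra.single b (1 : RO O)) =
            ((v b : Circle) : ℂ) := by
          intro v
          simp [ev, evC, spec]
          all_goals rfl
        rw [h6, Circle.norm_coe, one_mul]
        exact hC _
    have hfin' := (hfin.union (hZ O (G.coeff 0) hG0)).subset hsub
    obtain ⟨n, hn⟩ := hC1a O L G H' lam hG0 hGpos hb hfin'
    exact hC1b O L G H' (G.coeff 0 ^ n) hP (pow_ne_zero n hG0) hn
  have h7 : H = AddMonoidAlgebra.single (-b) (1 : RO O) * H' := by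
    rw [hH', ← mul_assoc, AddMonoidAlgebra.single_mul_single, neg_add_cancel, one_mul,
      ← AddMonoidAlgebra.one_def, one_mul]
  rw [h7]
  exact Dvd.dvd.mul_left key _

end Pool.Agent.B5.H32
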